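import Pool.Agent.Helper68.EP.St6

/-!
# Project EP (MP_cb927e_an), module CPP: the condition `(G_p)` for the slopes of a piece of the boundary

The first part (the caps contain the arcs with slopes near `τ t₀`) is taken from
`Pool.Agent.Helper93.RG.M_CAP` (project RG).
-/

set_option autoImplicit false

open MeasureTheory Set Filter Topology
open scoped ENNReal RealInnerProductSpace

namespace Pool.Agent.Helper52.EP

open Pool.Agent.Helper68.EP Pool.Agent.Helper20.RG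
open Pool.Agent.Helper68.LM (Pl BB Bd Av HL ft fm DQ)
open Pool.Agent.Helper61.Lacunary (ConditionG LpBounded linePlus capPlus capLength capIntegral
  arclength Admissible)

private theorem tau_monoC {φ τ : ℝ → ℝ} (h : Graph φ τ) {t t' : ℝ} (ht : t ≤ t') : τ t ≤ τ t' := by
  rcases eq_or_lt_of_le ht with e | e
  · rw [e]
  · have h1 := h.2 t t' ht
    have h2 : τ t * (t' - t) ≤ τ t' * (t' - t) := h1.1.trans h1.2
    exact le_of_mul_le_mul_right h2 (by linarith)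

/-- the increment of `φ` against the supporting line at `t₀` -/
private theorem inc_CAP {φ τ : ℝ → ℝ} (h : Graph φ τ) (t₀ t : ℝ) :
    0 ≤ φ t - φ t₀ - τ t₀ * (t - t₀) ∧
      φ t - φ t₀ - τ t₀ * (t - t₀) ≤ |τ t - τ t₀| * |t - t₀| := by
  have hmul : |τ t - τ t₀| * |t - t₀| = |(τ t - τ t₀) * (t - t₀)| := (abs_mul _ _).symm
  rcases le_total t₀ t with e | e
  · have h1 := h.2 t₀ t e
    constructor
    · linarith [h1.1]
    · rw [hmul]
      refine le_trans ?_ (le_abs_self _)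
      nlinarith [h1.2]
  · have h1 := h.2 t t₀ e
    constructor
    · nlinarith [h1.2]
    · rw [hmul]
      refine le_trans ?_ (le_abs_self _)
      nlinarith [h1.1]

section

variable {Ω : Set Pl} {P u v : Pl} {ℓ : ℝ} {φ τ : ℝ → ℝ}

private noncomputable def yy (P u v : Pl) (φ : ℝ → ℝ) (t : ℝ) : Pl := P + t • u + φ t • v

private theorem yy_inner_u (hp : Piece Ω P u v ℓ φ τ) (t : ℝ) :
    ⟪yy P u v φ t - P, u⟫ = t := by
  have h1 : yy P u v φ t - P = t • u + φ t • v := by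
    unfold yy; abel
  have huu : ⟪u, u⟫ = (1 : ℝ) := by
    rw [real_inner_self_eq_norm_sq, hp.nu]; norm_num
  have hvu : ⟪v, u⟫ = (0 : ℝ) := by rw [real_inner_comm]; exact hp.uv
  rw [h1, inner_add_left, inner_smul_left, inner_smul_left, huu, hvu]
  simp

private theorem yy_inner_n (hp : Piece Ω P u v ℓ φ τ) (t₀ t : ℝ) :
    ⟪yy P u v φ t - yy P u v φ t₀, v - τ t₀ • u⟫ = φ t - φ t₀ - τ t₀ * (t - t₀) := by
  have h1 : yy P u v φ t - yy P u v φ t₀ = (t - t₀) • u + (φ t - φ t₀) • v := by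
    unfold yy
    rw [sub_smul, sub_smul]
    abel
  have huu : ⟪u, u⟫ = (1 : ℝ) := by
    rw [real_inner_self_eq_norm_sq, hp.nu]; norm_num
  have hvv : ⟪v, v⟫ = (1 : ℝ) := by
    rw [real_inner_self_eq_norm_sq, hp.nv]; norm_num
  have hvu : ⟪v, u⟫ = (0 : ℝ) := by rw [real_inner_comm]; exact hp.uv
  rw [h1, inner_sub_right, inner_add_left, inner_add_left, inner_smul_right, inner_smul_right,
    inner_smul_left, inner_smul_left, inner_smul_left, inner_smul_left, huu, hvv, hvu, hp.uv]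
  simp

private theorem n_norm (hp : Piece Ω P u v ℓ φ τ) (t₀ : ℝ) : 1 ≤ ‖v - τ t₀ • u‖ := by
  have huu : ⟪u, u⟫ = (1 : ℝ) := by
    rw [real_inner_self_eq_norm_sq, hp.nu]; norm_num
  have hvv : ⟪v, v⟫ = (1 : ℝ) := by
    rw [real_inner_self_eq_norm_sq, hp.nv]; norm_num
  have hvu : ⟪v, u⟫ = (0 : ℝ) := by rw [real_inner_comm]; exact hp.uv
  have h1 : ‖v - τ t₀ • u‖ ^ 2 = 1 + τ t₀ ^ 2 := by
    rw [← real_inner_self_eq_norm_sq, inner_sub_left, inner_sub_right, inner_sub_right,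
      inner_smul_right, inner_smul_right, inner_smul_left, inner_smul_left, huu, hvv, hvu, hp.uv]
    simp
    ring
  have h2 := norm_nonneg (v - τ t₀ • u)
  nlinarith [sq_nonneg (τ t₀)]

/-- the caps contain the arcs with slopes near `τ t₀` -/
private theorem cap_CAP (hp : Piece Ω P u v ℓ φ τ) (hne : Ω.Nonempty) (t₀ : ℝ) (ht₀ : t₀ ∈ Ioo 0 ℓ)
    (S : Set ℝ) (hS : S ⊆ Ioo 0 ℓ) (κ : ℝ) (hκ : ∀ t ∈ S, |τ t - τ t₀| ≤ κ) (δ : ℝ)
    (hδ : κ * ℓ ≤ δ) :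
    ∃ θ₀ : Pl, ‖θ₀‖ = 1 ∧ θ₀ = -(‖v - τ t₀ • u‖⁻¹ • (v - τ t₀ • u)) ∧
      volume S ≤ capLength Ω θ₀ δ := by
  set n₀ := v - τ t₀ • u with hn₀
  have hn1 : 1 ≤ ‖n₀‖ := n_norm hp t₀
  have hnpos : 0 < ‖n₀‖ := by linarith
  set θ₀ : Pl := -(‖n₀‖⁻¹ • n₀) with hθ₀
  have hθn : ‖θ₀‖ = 1 := by
    rw [hθ₀, norm_neg, norm_smul, norm_inv, norm_norm]
    field_simp
  have hin : ∀ z : Pl, ⟪z, θ₀⟫ = -(‖n₀‖⁻¹ * ⟪z, n₀⟫) := by
    intro z
    rw [hθ₀, inner_neg_right, inner_smul_right]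
  refine ⟨θ₀, hθn, rfl, ?_⟩
  set y₀ := yy P u v φ t₀ with hy₀
  have hy₀fr : y₀ ∈ frontier Ω := hp.fr t₀ ht₀
  have hy₀cl : y₀ ∈ closure Ω := frontier_subset_closure hy₀fr
  have hsup : sSup ((fun y => ⟪y, θ₀⟫) '' Ω) = ⟪y₀, θ₀⟫ := by
    refine csSup_eq_of_forall_le_of_forall_lt_exists_gt (hne.image _) ?_ ?_
    · rintro _ ⟨z, hz, rfl⟩
      have h1 := hp.sup t₀ ht₀ z hz
      have h2 : 0 ≤ ⟪z - y₀, n₀⟫ := h1
      rw [inner_sub_left] at h2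
      show ⟪z, θ₀⟫ ≤ ⟪y₀, θ₀⟫
      rw [hin, hin]
      have h3 : ‖n₀‖⁻¹ * ⟪y₀, n₀⟫ ≤ ‖n₀‖⁻¹ * ⟪z, n₀⟫ :=
        mul_le_mul_of_nonneg_left (by linarith) (by positivity)
      linarith
    · intro w hw
      have hopen : IsOpen {z : Pl | w < ⟪z, θ₀⟫} :=
        isOpen_lt continuous_const (by fun_prop)
      obtain ⟨z, hz1, hz2⟩ := mem_closure_iff.1 hy₀cl _ hopen hw
      exact ⟨⟪z, θ₀⟫, ⟨z, hz2, rfl⟩, hz1⟩
  have hsub : (yy P u v φ) '' S ⊆ capPlus Ω θ₀ δ := by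
    rintro _ ⟨t, ht, rfl⟩
    refine ⟨hp.fr t (hS ht), ?_⟩
    set y := yy P u v φ t with hy
    have hmem : y + (⟪y₀, θ₀⟫ - ⟪y, θ₀⟫) • θ₀ ∈ linePlus Ω θ₀ := by
      show ⟪y + (⟪y₀, θ₀⟫ - ⟪y, θ₀⟫) • θ₀, θ₀⟫ = _
      rw [hsup, inner_add_left, inner_smul_left, real_inner_self_eq_norm_sq, hθn]
      simp
    refine (Metric.infDist_le_dist_of_mem hmem).trans ?_
    have h1 : dist y (y + (⟪y₀, θ₀⟫ - ⟪y, θ₀⟫) • θ₀) = |⟪y₀, θ₀⟫ - ⟪y, θ₀⟫| := by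
      rw [dist_eq_norm]
      have : y - (y + (⟪y₀, θ₀⟫ - ⟪y, θ₀⟫) • θ₀) = -((⟪y₀, θ₀⟫ - ⟪y, θ₀⟫) • θ₀) := by abel
      rw [this, norm_neg, norm_smul, hθn, mul_one, Real.norm_eq_abs]
    rw [h1, hin, hin]
    have h2 : -(‖n₀‖⁻¹ * ⟪y₀, n₀⟫) - -(‖n₀‖⁻¹ * ⟪y, n₀⟫) = ‖n₀‖⁻¹ * ⟪y - y₀, n₀⟫ := by
      rw [inner_sub_left]; ring
    have h3 : ⟪y - y₀, n₀⟫ = φ t - φ t₀ - τ t₀ * (t - t₀) := yy_inner_n hp t₀ t
    obtain ⟨i1, i2⟩ := inc_CAP hp.graph t₀ t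
    rw [h2, h3, abs_mul, abs_of_nonneg i1, abs_of_pos (by positivity : 0 < ‖n₀‖⁻¹)]
    have h4 : ‖n₀‖⁻¹ ≤ 1 := inv_le_one_of_one_le₀ hn1
    have h5 : |t - t₀| ≤ ℓ := by
      have a1 := hS ht
      rw [abs_le]
      constructor
      · linarith [a1.1, ht₀.2]
      · linarith [a1.2, ht₀.1]
    have h6 : |τ t - τ t₀| * |t - t₀| ≤ κ * ℓ := by
      have := hκ t ht
      exact mul_le_mul this h5 (abs_nonneg _) ((abs_nonneg _).trans this)
    calc ‖n₀‖⁻¹ * (φ t - φ t₀ - τ t₀ * (t - t₀)) ≤ 1 * (φ t - φ t₀ - τ t₀ * (t - t₀)) :=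
          mul_le_mul_of_nonneg_right h4 i1
      _ ≤ κ * ℓ := by linarith
      _ ≤ δ := hδ
  have hfr : (yy P u v φ) '' S ⊆ frontier Ω := hsub.trans (fun z hz => hz.1)
  have hlip : LipschitzWith 1 (fun z : Pl => (⟪z - P, u⟫ : ℝ)) := by
    refine LipschitzWith.of_dist_le_mul (fun z z' => ?_)
    rw [Real.dist_eq, ← inner_sub_left, dist_eq_norm]
    have : z - P - (z' - P) = z - z' := by abel
    rw [this, NNReal.coe_one, one_mul]
    refine (abs_real_inner_le_norm _ _).trans ?_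
    rw [hp.nu, mul_one]
  have himg : (fun z : Pl => (⟪z - P, u⟫ : ℝ)) '' ((yy P u v φ) '' S) = S := by
    rw [image_image]
    have : (fun t => (⟪yy P u v φ t - P, u⟫ : ℝ)) = id := by
      funext t
      exact yy_inner_u hp t
    rw [this, image_id]
  have h1 := hlip.hausdorffMeasure_image_le (d := 1) zero_le_one ((yy P u v φ) '' S)
  rw [himg, hausdorffMeasure_real] at h1
  simp only [ENNReal.coe_one, ENNReal.one_rpow, one_mul] at h1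
  refine h1.trans ?_
  have h2 : (μH[1] : Measure Pl) ((yy P u v φ) '' S) = arclength Ω ((yy P u v φ) '' S) :=
    (Measure.restrict_eq_self _ hfr).symm
  rw [h2]
  exact (measure_mono hsub).trans (le_max_left _ _)


/-- the integral over one dyadic interval of widths -/
private theorem step_CPP (hp : Piece Ω P u v ℓ φ τ) (hne : Ω.Nonempty) (t₀ : ℝ) (ht₀ : t₀ ∈ Ioo 0 ℓ)
    (S : Set ℝ) (hS : S ⊆ Ioo 0 ℓ) (κ : ℝ) (hκ0 : 0 < κ) (hκ : ∀ t ∈ S, |τ t - τ t₀| ≤ κ)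
    (σ : ℝ) (hσ : 0 < σ) :
    volume S ^ σ * ENNReal.ofReal (Real.log 2) ≤
      ∫⁻ δ in Ioc (κ * ℓ) (2 * (κ * ℓ)),
        capLength Ω (-(‖v - τ t₀ • u‖⁻¹ • (v - τ t₀ • u))) δ ^ σ * ENNReal.ofReal δ⁻¹ := by
  have ha : 0 < κ * ℓ := mul_pos hκ0 hp.pos
  have hlt : κ * ℓ < 2 * (κ * ℓ) := by linarith
  have h1 : ∫⁻ δ in Ioc (κ * ℓ) (2 * (κ * ℓ)), volume S ^ σ * ENNReal.ofReal δ⁻¹ =
      volume S ^ σ * ENNReal.ofReal (Real.log 2) := by
    rw [lintegral_const_mul _ (by fun_prop)]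
    congr 1
    have h0 : Real.log 2 = Real.log ((2 * (κ * ℓ)) / (κ * ℓ)) := by
      congr 1; rw [mul_div_assoc, div_self ha.ne', mul_one]
    rw [h0, ← integral_inv_of_pos ha (ha.trans hlt), intervalIntegral.integral_of_le hlt.le,
      ofReal_integral_eq_lintegral_ofReal]
    · have h2 : IntervalIntegrable (fun x : ℝ => x⁻¹) volume (κ * ℓ) (2 * (κ * ℓ)) := by
        apply intervalIntegral.intervalIntegrable_inv
        · intro x hx
          rw [uIcc_of_le hlt.le] at hx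
          exact (ha.trans_le hx.1).ne'
        · exact continuousOn_id
      exact (intervalIntegrable_iff_integrableOn_Ioc_of_le hlt.le).1 h2
    · refine (ae_restrict_mem measurableSet_Ioc).mono (fun x hx => ?_)
      show (0 : ℝ) ≤ x⁻¹
      exact inv_nonneg.2 (ha.trans hx.1).le
  rw [← h1]
  refine lintegral_mono_ae ?_
  refine (ae_restrict_mem measurableSet_Ioc).mono (fun δ hδ => ?_)
  obtain ⟨θ₁, -, hθe1, h3⟩ := cap_CAP hp hne t₀ ht₀ S hS κ hκ δ hδ.1.le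
  rw [hθe1] at h3
  show volume S ^ σ * ENNReal.ofReal δ⁻¹ ≤ _
  gcongr

/-- the sum over the dyadic intervals; `T i = {t ∈ (0,ℓ) : |τ t - θ| ≤ 2^(-i)}` -/
private theorem sum_CPP (hp : Piece Ω P u v ℓ φ τ) (hne : Ω.Nonempty) (t₀ θ : ℝ) (i₀ m : ℕ)
    (ht₀ : t₀ ∈ Ioo 0 ℓ) (hm : |τ t₀ - θ| ≤ (2 : ℝ) ^ (-(m : ℤ))) (σ : ℝ) (hσ : 0 < σ) (j : ℕ)
    (hj : i₀ + j ≤ m + 1) :
    ∑ i ∈ Finset.range j, volume {t : ℝ | t ∈ Ioo 0 ℓ ∧ |τ t - θ| ≤ (2 : ℝ) ^ (-((i₀ + i : ℕ) : ℤ))} ^ σ *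
        ENNReal.ofReal (Real.log 2) ≤
      ∫⁻ δ in Ioc (4 * ℓ / 2 ^ (i₀ + j)) (4 * ℓ / 2 ^ i₀),
        capLength Ω (-(‖v - τ t₀ • u‖⁻¹ • (v - τ t₀ • u))) δ ^ σ * ENNReal.ofReal δ⁻¹ := by
  have hℓ := hp.pos
  induction j with
  | zero => simp
  | succ j ih =>
    have ih' := ih (by omega)
    rw [Finset.sum_range_succ]
    have hz : (2 : ℝ) ^ (-((i₀ + j : ℕ) : ℤ)) = 1 / 2 ^ (i₀ + j) := by
      rw [zpow_neg, zpow_natCast, one_div]
    have hle : (2 : ℝ) ^ (-(m : ℤ)) ≤ (2 : ℝ) ^ (-((i₀ + j : ℕ) : ℤ)) := by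
      apply zpow_le_zpow_right₀ (by norm_num)
      have : i₀ + j ≤ m := by omega
      omega
    have hstep := step_CPP hp hne t₀ ht₀
      {t : ℝ | t ∈ Ioo 0 ℓ ∧ |τ t - θ| ≤ (2 : ℝ) ^ (-((i₀ + j : ℕ) : ℤ))} (fun t ht => ht.1)
      (2 * (2 : ℝ) ^ (-((i₀ + j : ℕ) : ℤ))) (by positivity) (by
        intro t ht
        have h1 : τ t - τ t₀ = (τ t - θ) - (τ t₀ - θ) := by ring
        rw [h1]
        have := abs_sub (τ t - θ) (τ t₀ - θ)
        linarith [ht.2, hm.trans hle]) σ hσ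
    have e1 : 2 * (2 : ℝ) ^ (-((i₀ + j : ℕ) : ℤ)) * ℓ = 4 * ℓ / 2 ^ (i₀ + (j + 1)) := by
      rw [hz, show i₀ + (j + 1) = (i₀ + j) + 1 by ring, pow_succ]
      field_simp
      ring
    have e2 : 2 * (2 * (2 : ℝ) ^ (-((i₀ + j : ℕ) : ℤ)) * ℓ) = 4 * ℓ / 2 ^ (i₀ + j) := by
      rw [hz]
      field_simp
      ring
    rw [e2, e1] at hstep
    have hu : Ioc (4 * ℓ / 2 ^ (i₀ + (j + 1))) (4 * ℓ / 2 ^ i₀) =
        Ioc (4 * ℓ / 2 ^ (i₀ + (j + 1))) (4 * ℓ / 2 ^ (i₀ + j)) ∪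
          Ioc (4 * ℓ / 2 ^ (i₀ + j)) (4 * ℓ / 2 ^ i₀) := by
      symm
      apply Ioc_union_Ioc_eq_Ioc
      · apply div_le_div_of_nonneg_left (by positivity) (by positivity)
        exact pow_le_pow_right₀ (by norm_num) (by omega)
      · apply div_le_div_of_nonneg_left (by positivity) (by positivity)
        exact pow_le_pow_right₀ (by norm_num) (by omega)
    rw [hu, lintegral_union measurableSet_Ioc]
    · rw [add_comm]
      exact add_le_add hstep ih'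
    · rw [Set.disjoint_left]
      intro x hx hx'
      exact absurd hx.2 (not_le.2 hx'.1)

end

theorem hCPP : StCPP := by
  intro Ω σ _hO _hC _hB hne hσ hG P u v ℓ φ τ hp
  obtain ⟨⟨δ₀, hadm⟩, hall⟩ := hG
  obtain ⟨A₁, hA₁⟩ := hall δ₀ hadm
  have hδ₀ : 0 < δ₀ := hadm.1
  have hℓ := hp.pos
  set A' := max A₁ 0 with hA'
  have hA'0 : 0 ≤ A' := le_max_right _ _
  have hA2 : ∀ θ : Pl, ‖θ‖ = 1 → capIntegral Ω σ δ₀ θ ≤ ENNReal.ofReal A' := fun θ hθ =>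
    (hA₁ θ hθ).trans (ENNReal.ofReal_le_ofReal (le_max_left _ _))
  have hlog : 0 < Real.log 2 := Real.log_pos (by norm_num)
  obtain ⟨i₀, hi₀⟩ : ∃ i₀ : ℕ, 4 * ℓ / 2 ^ i₀ < δ₀ := by
    obtain ⟨i₀, hi₀⟩ := pow_unbounded_of_one_lt (4 * ℓ / δ₀) (by norm_num : (1 : ℝ) < 2)
    refine ⟨i₀, ?_⟩
    rw [div_lt_iff₀ hδ₀] at hi₀
    rw [div_lt_iff₀ (by positivity)]
    linarith
  set Bd' : ℝ := i₀ * ℓ ^ σ + A' / Real.log 2 with hBd
  have hBd0 : 0 ≤ Bd' := by positivity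
  refine ⟨Bd' / ℓ ^ σ + 1, by positivity, ?_⟩
  intro θ n
  set V : ℕ → ℝ≥0∞ := fun i => volume {t : ℝ | t ∈ Ioo 0 ℓ ∧ |τ t - θ| ≤ (2 : ℝ) ^ (-(i : ℤ))} with hV
  have hVℓ : ∀ i, V i ≤ ENNReal.ofReal ℓ := by
    intro i
    refine (measure_mono (fun t ht => ht.1 : {t : ℝ | t ∈ Ioo 0 ℓ ∧ |τ t - θ| ≤ (2 : ℝ) ^ (-(i : ℤ))} ⊆
      Ioo 0 ℓ)).trans ?_
    rw [Real.volume_Ioo, sub_zero]
  have hVtop : ∀ i, V i ≠ ∞ := fun i => ((hVℓ i).trans_lt ENNReal.ofReal_lt_top).ne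
  set r : ℕ → ℝ := fun i => (V i).toReal with hr
  have hr0 : ∀ i, 0 ≤ r i := fun i => ENNReal.toReal_nonneg
  have hrV : ∀ i, V i = ENNReal.ofReal (r i) := fun i => (ENNReal.ofReal_toReal (hVtop i)).symm
  have hrℓ : ∀ i, r i ≤ ℓ := by
    intro i
    have := hVℓ i
    rw [hrV i, ENNReal.ofReal_le_ofReal_iff hℓ.le] at this
    exact this
  -- scaling
  have hscale : ∀ i : ℕ, elt (fun t => τ (ℓ * t)) θ i ≤ r i / ℓ := by
    intro i
    unfold elt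
    have hsub : {t : ℝ | t ∈ Icc (0 : ℝ) 1 ∧ |τ (ℓ * t) - θ| ≤ (2 : ℝ) ^ (-(i : ℤ))} ⊆
        (fun x => ℓ * x) ⁻¹' ({t : ℝ | t ∈ Ioo 0 ℓ ∧ |τ t - θ| ≤ (2 : ℝ) ^ (-(i : ℤ))} ∪ {0, ℓ}) := by
      rintro t ⟨ht, h⟩
      show ℓ * t ∈ {t : ℝ | t ∈ Ioo 0 ℓ ∧ |τ t - θ| ≤ (2 : ℝ) ^ (-(i : ℤ))} ∪ {0, ℓ}
      rcases eq_or_lt_of_le ht.1 with e | e
      · right; left; rw [← e, mul_zero]
      · rcases eq_or_lt_of_le ht.2 with e' | e'
        · right; right; rw [e', mul_one]; rfl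
        · left
          exact ⟨⟨by positivity, by nlinarith⟩, h⟩
    have hle : volume {t : ℝ | t ∈ Icc (0 : ℝ) 1 ∧ |τ (ℓ * t) - θ| ≤ (2 : ℝ) ^ (-(i : ℤ))} ≤
        ENNReal.ofReal (r i / ℓ) := by
      refine (measure_mono hsub).trans ?_
      rw [Real.volume_preimage_mul_left hℓ.ne', abs_of_pos (by positivity)]
      have h1 : volume ({t : ℝ | t ∈ Ioo 0 ℓ ∧ |τ t - θ| ≤ (2 : ℝ) ^ (-(i : ℤ))} ∪ {0, ℓ}) ≤ V i := by
        refine (measure_union_le _ _).trans ?_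
        have : volume ({0, ℓ} : Set ℝ) = 0 := (Set.toFinite _).measure_zero _
        rw [this, add_zero]
      calc ENNReal.ofReal ℓ⁻¹ * volume ({t : ℝ | t ∈ Ioo 0 ℓ ∧ |τ t - θ| ≤ (2 : ℝ) ^ (-(i : ℤ))} ∪ {0, ℓ})
          ≤ ENNReal.ofReal ℓ⁻¹ * V i := by gcongr
        _ = ENNReal.ofReal (r i / ℓ) := by
          rw [hrV i, ← ENNReal.ofReal_mul (by positivity)]
          congr 1
          ring
    calc (volume {t : ℝ | t ∈ Icc (0 : ℝ) 1 ∧ |τ (ℓ * t) - θ| ≤ (2 : ℝ) ^ (-(i : ℤ))}).toReal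
        ≤ (ENNReal.ofReal (r i / ℓ)).toReal := ENNReal.toReal_mono ENNReal.ofReal_ne_top hle
      _ = r i / ℓ := ENNReal.toReal_ofReal (div_nonneg (hr0 i) hℓ.le)
  -- the sum of the measures
  have hmain : ∀ n : ℕ, ∑ i ∈ Finset.range n, r (i + 1) ^ σ ≤ Bd' := by
    intro n
    induction n with
    | zero => simpa using hBd0
    | succ n ih =>
      by_cases hemp : {t : ℝ | t ∈ Ioo 0 ℓ ∧ |τ t - θ| ≤ (2 : ℝ) ^ (-((n + 1 : ℕ) : ℤ))}.Nonempty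
      · obtain ⟨t₀, ht₀, hm⟩ := hemp
        have hθn : ‖(-(‖v - τ t₀ • u‖⁻¹ • (v - τ t₀ • u)) : Pl)‖ = 1 := by
          have hn1 : 1 ≤ ‖v - τ t₀ • u‖ := n_norm hp t₀
          have hnpos : 0 < ‖v - τ t₀ • u‖ := by linarith
          rw [norm_neg, norm_smul, norm_inv, norm_norm]
          field_simp
        have hshift : ∑ i ∈ Finset.range (n + 1), r (i + 1) ^ σ ≤
            ∑ i ∈ Finset.range (n + 2), r i ^ σ := by
          rw [Finset.sum_range_succ' (fun i => r i ^ σ) (n + 1)]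
          have : 0 ≤ r 0 ^ σ := Real.rpow_nonneg (hr0 0) _
          linarith
        refine hshift.trans ?_
        have hsmall : ∀ k : ℕ, ∑ i ∈ Finset.range k, r i ^ σ ≤ k * ℓ ^ σ := by
          intro k
          calc ∑ i ∈ Finset.range k, r i ^ σ ≤ ∑ _i ∈ Finset.range k, ℓ ^ σ :=
                Finset.sum_le_sum fun i _ => Real.rpow_le_rpow (hr0 i) (hrℓ i) hσ.le
            _ = k * ℓ ^ σ := by rw [Finset.sum_const, Finset.card_range, nsmul_eq_mul]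
        rcases le_or_gt (n + 2) i₀ with hle | hgt
        · refine (hsmall (n + 2)).trans ?_
          have h1 : ((n + 2 : ℕ) : ℝ) ≤ i₀ := by exact_mod_cast hle
          have h2 : 0 ≤ A' / Real.log 2 := by positivity
          have h3 : 0 ≤ ℓ ^ σ := by positivity
          have h4 := mul_le_mul_of_nonneg_right h1 h3
          rw [hBd]; linarith
        · obtain ⟨j, hj⟩ : ∃ j, n + 2 = i₀ + j := ⟨n + 2 - i₀, by omega⟩
          rw [hj, Finset.sum_range_add]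
          have h1 := sum_CPP hp hne t₀ θ i₀ (n + 1) ht₀ hm σ hσ j (by omega)
          have h2 : ∫⁻ δ in Ioc (4 * ℓ / 2 ^ (i₀ + j)) (4 * ℓ / 2 ^ i₀),
              capLength Ω (-(‖v - τ t₀ • u‖⁻¹ • (v - τ t₀ • u))) δ ^ σ * ENNReal.ofReal δ⁻¹ ≤
              ENNReal.ofReal A' := by
            refine le_trans ?_ (hA2 _ hθn)
            unfold capIntegral
            refine lintegral_mono_set ?_
            intro x hx
            have h3 : 0 < 4 * ℓ / 2 ^ (i₀ + j) := by positivity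
            exact ⟨h3.trans hx.1, hx.2.trans_lt hi₀⟩
          have h3 := h1.trans h2
          have h4 : ∑ i ∈ Finset.range j, volume {t : ℝ | t ∈ Ioo 0 ℓ ∧
              |τ t - θ| ≤ (2 : ℝ) ^ (-((i₀ + i : ℕ) : ℤ))} ^ σ * ENNReal.ofReal (Real.log 2) =
              ENNReal.ofReal (∑ i ∈ Finset.range j, r (i₀ + i) ^ σ * Real.log 2) := by
            rw [ENNReal.ofReal_sum_of_nonneg (fun i _ => mul_nonneg (Real.rpow_nonneg (hr0 _) _) hlog.le)]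
            refine Finset.sum_congr rfl fun i _ => ?_
            show V (i₀ + i) ^ σ * ENNReal.ofReal (Real.log 2) = _
            rw [hrV (i₀ + i), ENNReal.ofReal_rpow_of_nonneg (hr0 _) hσ.le,
              ← ENNReal.ofReal_mul (Real.rpow_nonneg (hr0 _) _)]
          rw [h4, ENNReal.ofReal_le_ofReal_iff hA'0, ← Finset.sum_mul, ← le_div_iff₀ hlog] at h3
          have h5 := hsmall i₀
          rw [hBd]; linarith
      · rw [Set.not_nonempty_iff_eq_empty] at hemp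
        rw [Finset.sum_range_succ]
        have h1 : r (n + 1) = 0 := by
          show (volume {t : ℝ | t ∈ Ioo 0 ℓ ∧ |τ t - θ| ≤ (2 : ℝ) ^ (-((n + 1 : ℕ) : ℤ))}).toReal = 0
          rw [hemp]; simp
        rw [h1, Real.zero_rpow hσ.ne']
        linarith
  calc ∑ i ∈ Finset.range n, elt (fun t => τ (ℓ * t)) θ (i + 1) ^ σ
      ≤ ∑ i ∈ Finset.range n, r (i + 1) ^ σ / ℓ ^ σ := by
        refine Finset.sum_le_sum fun i _ => ?_
        rw [← Real.div_rpow (hr0 _) hℓ.le]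
        exact Real.rpow_le_rpow ENNReal.toReal_nonneg (hscale _) hσ.le
    _ = (∑ i ∈ Finset.range n, r (i + 1) ^ σ) / ℓ ^ σ := by rw [Finset.sum_div]
    _ ≤ Bd' / ℓ ^ σ := by
        apply div_le_div_of_nonneg_right (hmain n) (by positivity)
    _ ≤ Bd' / ℓ ^ σ + 1 := by linarith

end Pool.Agent.Helper52.EP
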