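import Pool.Agent.Helper68.EP.St2

/-!
# Project EP (MP_cb927e_an): module EPA (the pair bound for `u₂ ≤ u₁`)
-/

set_option autoImplicit false

open MeasureTheory Set Filter Topology
open scoped ENNReal RealInnerProductSpace

namespace Pool.Agent.Helper52.EP

open Pool.Agent.Helper68.LM (Pl BB Bd Av HL ft fm DQ)
open Pool.Agent.Helper68.EP Pool.Agent.Helper20.RG
open Pool.Agent.Helper20.RL (RQ Rich BM Fml StLGR)

lemma DD_pos (P : Par) (u : ℕ) : 0 < DD P u := by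
  unfold DD; positivity

lemma et_pos (P : Par) (u q : ℕ) : 0 < et P u q := by
  unfold et; positivity

lemma cq_nonneg (P : Par) (u q : ℕ) (θ : ℝ) (hθ : 0 < θ) : 0 ≤ cq P u q θ := by
  unfold cq
  have h1 := DD_pos P u
  have h2 := et_pos P u q
  positivity

lemma DD_lt (P : Par) (u : ℕ) (θ : ℝ) (h : Ok P u θ) : DD P u < θ / 32 := by
  have h1 := h.den
  have h2 := DD_pos P u
  have h3 : et P u (q0 P u) ≤ 1 := by
    unfold et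
    have : ((q0 P u : ℕ) : ℤ) - (q1 P u : ℤ) - 4 ≤ 0 := by
      have := h.qq.2
      omega
    calc (2 : ℝ) ^ (((q0 P u : ℕ) : ℤ) - (q1 P u : ℤ) - 4) ≤ (2 : ℝ) ^ (0 : ℤ) :=
          zpow_le_zpow_right₀ (by norm_num) this
      _ = 1 := by simp
  have h4 : et P u (q0 P u) * θ ≤ 1 * θ := mul_le_mul_of_nonneg_right h3 h.th.1.le
  have h5 := h.th.1
  linarith

lemma q1_mono (P : Par) {u v : ℕ} (h : u ≤ v) : q1 P u ≤ q1 P v := by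
  unfold q1
  have hp : 0 < P.p := by have := P.hs; have := P.hsp; linarith
  have : ⌈P.p * (u : ℝ)⌉₊ ≤ ⌈P.p * (v : ℝ)⌉₊ := by
    apply Nat.ceil_mono
    have : (u : ℝ) ≤ v := by exact_mod_cast h
    exact mul_le_mul_of_nonneg_left this hp.le
  omega

/-- number of multiples of `G` in `(k - N, k]` -/
lemma card_le (G N : ℕ) (k : ℤ) (hG : 0 < G) :
    (((Finset.Ioc ((k - (N : ℤ)) / (G : ℤ)) (k / (G : ℤ))).card : ℕ) : ℝ) ≤ (N : ℝ) / G + 1 := by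
  rw [Int.card_Ioc]
  have hG' : (0 : ℝ) < G := by exact_mod_cast hG
  have hGz : (0 : ℤ) < (G : ℤ) := by exact_mod_cast hG
  have h1 : (((k / (G : ℤ) : ℤ)) : ℝ) ≤ (k : ℝ) / G := by
    have : (k / (G : ℤ)) * (G : ℤ) ≤ k := Int.ediv_mul_le k hGz.ne'
    rw [le_div_iff₀ hG']
    exact_mod_cast this
  have h2 : ((k : ℝ) - N) / G - 1 ≤ ((((k - (N : ℤ)) / (G : ℤ) : ℤ)) : ℝ) := by
    have : k - (N : ℤ) < ((k - (N : ℤ)) / (G : ℤ) + 1) * (G : ℤ) := Int.lt_ediv_add_one_mul_self _ hGz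
    have h3 : ((k : ℝ) - N) < ((((k - (N : ℤ)) / (G : ℤ) : ℤ)) + 1) * (G : ℝ) := by exact_mod_cast this
    have h4 : ((k : ℝ) - N) / G < ((((k - (N : ℤ)) / (G : ℤ) : ℤ)) : ℝ) + 1 := by
      rw [div_lt_iff₀ hG']; exact h3
    linarith
  have h5 : 0 ≤ k / (G : ℤ) - (k - (N : ℤ)) / (G : ℤ) := by
    have : (k - (N : ℤ)) / (G : ℤ) ≤ k / (G : ℤ) := Int.ediv_le_ediv hGz (by omega)
    omega
  have h6 : (((k / (G : ℤ) - (k - (N : ℤ)) / (G : ℤ)).toNat : ℕ) : ℝ) =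
      ((k / (G : ℤ) : ℤ) : ℝ) - (((k - (N : ℤ)) / (G : ℤ) : ℤ) : ℝ) := by
    have : (((k / (G : ℤ) - (k - (N : ℤ)) / (G : ℤ)).toNat : ℕ) : ℤ) =
      (k / (G : ℤ) : ℤ) - ((k - (N : ℤ)) / (G : ℤ) : ℤ) := Int.toNat_of_nonneg h5
    have h7 : ((((k / (G : ℤ) - (k - (N : ℤ)) / (G : ℤ)).toNat : ℕ) : ℤ) : ℝ) =
      (((k / (G : ℤ) : ℤ) - ((k - (N : ℤ)) / (G : ℤ) : ℤ) : ℤ) : ℝ) := by rw [this]
    push_cast at h7 ⊢
    exact h7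
  rw [h6]
  have h8 : ((k : ℝ) - N) / G = (k : ℝ) / G - N / G := by ring
  rw [h8] at h2
  linarith

theorem hEPA (hEFB : StEFB) (hEVF : StEVF) (hECS : StECS) (hEF1 : StEF1) (hECQ : StECQ)
    (hEEN : StEEN) (hLGR : StLGR) : StEPA := by
  intro P Δ u₁ q u₂ j₂ k₂ θ E V' hSy hO1 hO2 hu hq0 hq1 hj hE hV
  have hθ : 0 < θ := hO1.th.1
  obtain ⟨hvf1, -, -, hvf4⟩ := hEVF P Δ u₂ j₂ k₂ θ E hE hθ
  obtain ⟨hF, -, -, -⟩ := hvf4 V' hV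
  have hq5 : 5 ≤ q := le_trans hO1.qq.1 hq0
  -- numerology
  obtain ⟨G, hGdef⟩ : ∃ G : ℕ, G = 2 ^ (q - 4) := ⟨_, rfl⟩
  have hGpos : 0 < G := by rw [hGdef]; positivity
  have h16 : 2 ^ q = 16 * G := by
    rw [hGdef]
    have : q = (q - 4) + 4 := by omega
    conv_lhs => rw [this, pow_add]
    ring
  have hu1G : u₁ ≤ G := by
    have h1 := hO1.uq
    have h2 : 2 ^ q0 P u₁ ≤ 2 ^ q := Nat.pow_le_pow_right (by norm_num) hq0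
    rw [h16] at h2
    omega
  have hsl : |Δ.sl u₂ j₂| ≤ 1 := hSy.slope u₂ j₂ hO2.u1 hj
  have hcq : 0 ≤ cq P u₁ q θ := cq_nonneg P u₁ q θ hθ
  have key : volume (Bad P Δ u₁ q u₂ j₂ k₂ θ E ∩ V') ≤
      ENNReal.ofReal ((2 ^ q1 P u₁ / 2 ^ (q - 4) + 1) * cq P u₁ q θ) * volume (univ ∩ V') := by
    refine hECS (Fo P u₂ k₂ (q0 P u₂) E) (Δ.sl u₂ j₂) θ V' _ univ _ _ _ hF ?_
    intro y hy
    set B := Bc P Δ u₂ j₂ k₂ θ E y with hB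
    -- the set of possible grid points
    set I : Finset ℤ := Finset.Ioc ((k₂ - ((2 ^ q1 P u₂ : ℕ) : ℤ)) / (G : ℤ)) (k₂ / (G : ℤ)) with hI
    have hsub : Bad P Δ u₁ q u₂ j₂ k₂ θ E ∩ RQ (Δ.sl u₂ j₂) (k₂ - (u₂ : ℤ)) B y ⊆
        ⋃ n ∈ I, (Rg1 P Δ u₁ q (n * (G : ℤ)) (Δ.sl u₂ j₂) θ E ∩
          RQ (Δ.sl u₂ j₂) (k₂ - (u₂ : ℤ)) B y) := by
      rintro z ⟨hz, hzQ⟩
      obtain ⟨hzT, j₁, hj₁, k₁, hk, hzT1, hzL, htr⟩ := hz
      have hBz : Bc P Δ u₂ j₂ k₂ θ E z = B := (hF.inv y hy z hzQ).2.2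
      have hGz : (0 : ℤ) < (G : ℤ) := by exact_mod_cast hGpos
      have hk1 : k₁ / (G : ℤ) * (G : ℤ) ≤ k₁ := Int.ediv_mul_le k₁ hGz.ne'
      have hk2 : k₁ < k₁ / (G : ℤ) * (G : ℤ) + (G : ℤ) := by
        have := Int.lt_ediv_add_one_mul_self k₁ hGz
        linarith
      have hGc : ((2 : ℤ) ^ (q - 4)) = (G : ℤ) := by rw [hGdef]; push_cast; rfl
      obtain ⟨e1, e2, -⟩ := hEEN P Δ u₁ j₁ q k₁ (k₁ / (G : ℤ) * (G : ℤ)) (Δ.sl u₂ j₂) θ E z hSy hO1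
        hj₁ hE hq0 hq1 hzT1 hzL hk1 (by rw [hGc]; exact hk2) htr
      obtain ⟨f1, -, f3, -, -⟩ := hEF1 P Δ u₂ j₂ k₂ θ E z hSy hO2 hj hE hzT
      rw [hBz] at f1 f3
      have hlow : B + 1 < k₁ / (G : ℤ) * (G : ℤ) - 15 * (G : ℤ) := by
        by_contra hcon
        push Not at hcon
        refine f3 (DD P u₁) _ (DD_lt P u₁ θ hO1) ?_ e2
        rw [hGc]; exact hcon
      have hfl : (Δ.fl u₂ j₂ : ℤ) ≤ ((2 ^ q1 P u₂ : ℕ) : ℤ) := by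
        exact_mod_cast (hSy.flat u₂ j₂ hO2.u1 hj).2
      rw [mem_iUnion₂]
      refine ⟨k₁ / (G : ℤ), ?_, e1, hzQ⟩
      rw [hI, Finset.mem_Ioc]
      constructor
      · rw [Int.ediv_lt_iff_lt_mul hGz]
        have := f1.1
        linarith
      · exact Int.ediv_le_ediv hGz hk
    have hvol : volume (RQ (Δ.sl u₂ j₂) (k₂ - (u₂ : ℤ)) B y) =
        ENNReal.ofReal ((2 : ℝ) ^ (k₂ - (u₂ : ℤ) + B)) := (hLGR.1 _ _ _ _).2.1
    rw [univ_inter]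
    calc volume (Bad P Δ u₁ q u₂ j₂ k₂ θ E ∩ RQ (Δ.sl u₂ j₂) (k₂ - (u₂ : ℤ)) B y)
        ≤ volume (⋃ n ∈ I, (Rg1 P Δ u₁ q (n * (G : ℤ)) (Δ.sl u₂ j₂) θ E ∩
          RQ (Δ.sl u₂ j₂) (k₂ - (u₂ : ℤ)) B y)) := measure_mono hsub
      _ ≤ ∑ n ∈ I, volume (Rg1 P Δ u₁ q (n * (G : ℤ)) (Δ.sl u₂ j₂) θ E ∩
          RQ (Δ.sl u₂ j₂) (k₂ - (u₂ : ℤ)) B y) := measure_biUnion_finset_le _ _
      _ ≤ ∑ _n ∈ I, ENNReal.ofReal (cq P u₁ q θ * (2 : ℝ) ^ (k₂ - (u₂ : ℤ) + B)) := by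
          refine Finset.sum_le_sum fun n hn => ?_
          have hn2 : n * (G : ℤ) ≤ k₂ := by
            have h1 : n ≤ k₂ / (G : ℤ) := (Finset.mem_Ioc.mp hn).2
            have hGz : (0 : ℤ) < (G : ℤ) := by exact_mod_cast hGpos
            exact (Int.le_ediv_iff_mul_le hGz).mp h1
          refine hECQ P Δ u₁ q (n * (G : ℤ)) (k₂ - (u₂ : ℤ)) B (Δ.sl u₂ j₂) θ E y hSy hO1
            (by omega) hsl hE ?_
          have hGc : ((2 : ℤ) ^ (q - 4)) = (G : ℤ) := by rw [hGdef]; push_cast; rfl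
          rw [hGc]
          have : (u₂ : ℤ) ≤ (G : ℤ) := by exact_mod_cast le_trans hu hu1G
          linarith
      _ = ENNReal.ofReal ((I.card : ℝ) * (cq P u₁ q θ * (2 : ℝ) ^ (k₂ - (u₂ : ℤ) + B))) := by
          rw [Finset.sum_const, nsmul_eq_mul, ENNReal.ofReal_mul (Nat.cast_nonneg _),
            ENNReal.ofReal_natCast]
      _ ≤ ENNReal.ofReal (((2 ^ q1 P u₁ / 2 ^ (q - 4) + 1) * cq P u₁ q θ) *
            (2 : ℝ) ^ (k₂ - (u₂ : ℤ) + B)) := by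
          refine ENNReal.ofReal_le_ofReal ?_
          have hc := card_le G (2 ^ q1 P u₂) k₂ hGpos
          rw [← hI] at hc
          have h1 : (((2 ^ q1 P u₂ : ℕ)) : ℝ) / G + 1 ≤ 2 ^ q1 P u₁ / 2 ^ (q - 4) + 1 := by
            have hG2 : (G : ℝ) = 2 ^ (q - 4) := by rw [hGdef]; push_cast; rfl
            rw [hG2]
            have h2 : (((2 ^ q1 P u₂ : ℕ)) : ℝ) ≤ 2 ^ q1 P u₁ := by
              push_cast
              exact pow_le_pow_right₀ (by norm_num) (q1_mono P hu)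
            gcongr
          have h3 : (I.card : ℝ) ≤ 2 ^ q1 P u₁ / 2 ^ (q - 4) + 1 := le_trans hc h1
          have h4 : 0 ≤ cq P u₁ q θ * (2 : ℝ) ^ (k₂ - (u₂ : ℤ) + B) := by positivity
          calc (I.card : ℝ) * (cq P u₁ q θ * (2 : ℝ) ^ (k₂ - (u₂ : ℤ) + B))
              ≤ (2 ^ q1 P u₁ / 2 ^ (q - 4) + 1) * (cq P u₁ q θ * (2 : ℝ) ^ (k₂ - (u₂ : ℤ) + B)) :=
                mul_le_mul_of_nonneg_right h3 h4
            _ = _ := by ring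
      _ = ENNReal.ofReal ((2 ^ q1 P u₁ / 2 ^ (q - 4) + 1) * cq P u₁ q θ) *
            volume (RQ (Δ.sl u₂ j₂) (k₂ - (u₂ : ℤ)) B y) := by
          rw [hvol, ENNReal.ofReal_mul (by positivity)]
  rwa [univ_inter] at key

end Pool.Agent.Helper52.EP
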